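import Pool.Agent.Run7.h694.CP.Hfp

/-!
# `1/2`-flow-pairs: seven sets, or six odd sets, which are never far (MP_e59a69_co)

Call two disjoint sets of vertices close if they are joined by an edge, or by two different paths
with two edges. Let `G` be a bridgeless multigraph in which any seven pairwise disjoint sets with
boundary edges include two close ones, or any six pairwise disjoint sets with odd boundaries and at
most 26 boundary edges in total. Then `G` has a `1/2`-flow-pair, and at every vertex with exactly
three edges every admissible choice of the values extends. The conditions are only needed for sets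
without boundary edges in a chain of circuits or ears with at most four new edges and of doubly
connected pieces. In particular this holds for graphs in which the vertices of odd degree have
independence number at most five.

Proof. Let `H` be a quotient modulo the chain without nowhere-zero 4-flow and without Petersen
quotient such that all proper quotients of `H` have a flow. The girth of `H` is at least five, at
least 18 vertices have odd degree, and `H` has at most `2 n - 3` edges, `n` being the number of its
vertices which are not isolated (starting library). So there are 16 vertices of odd degree any six of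
which have at most 26 edges, and six of these 16 are pairwise not adjacent; they give six disjoint
sets of vertices of `G`. (For seven sets: `R545/IN`.) So `G` and every bridgeless graph obtained
from it by identification of vertices has a nowhere-zero 4-flow, or ten classes of vertices form a
Petersen graph, and the induction of `R129/Hfp/Main.lean` applies.
-/

set_option autoImplicit false

namespace Pool.Agent.Results.MP_e59a69_co.FarDisjointSets

open Finset Pool.Agent.H160R2.HF Pool.Agent.R129.Hfp

/-- The edges with exactly one end in `X`. -/
def boundary {V E : Type} [DecidableEq V] [Fintype E] (G : OrGraph V E) (X : Finset V) :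
    Finset E :=
  univ.filter (fun e => ¬ (G.t e ∈ X ↔ G.h e ∈ X))

/-- The union of the sets `C j` with `j < i`. -/
def earlier {E : Type} [DecidableEq E] {m : ℕ} (C : Fin m → Finset E) (i : Fin m) : Finset E :=
  (univ.filter (fun j => j < i)).biUnion C

/-- `H` can be added to the chain after `F`: either (short) `H` has at most four edges outside `F`
and no bridge modulo `F`: no set `Y` of vertices without boundary edges in `F` has exactly one
boundary edge in `H`; or (doubly connected) `H` contains two disjoint sets each of which connects,
modulo `F`, whatever `H` connects: every set `Y` of vertices without boundary edges in `F` and with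
a boundary edge in `H` has boundary edges in both sets. -/
def Adds {V E : Type} [DecidableEq V] [Fintype E] [DecidableEq E] (G : OrGraph V E)
    (F H : Finset E) : Prop :=
  ((H \ F).card ≤ 4 ∧ ∀ Y : Finset V, Disjoint (boundary G Y) F →
    (boundary G Y ∩ H).card ≠ 1) ∨
  ∃ T₁ T₂ : Finset E, T₁ ⊆ H ∧ T₂ ⊆ H ∧ Disjoint T₁ T₂ ∧ ∀ Y : Finset V,
    Disjoint (boundary G Y) F → ¬ Disjoint (boundary G Y) H →
      ¬ Disjoint (boundary G Y) T₁ ∧ ¬ Disjoint (boundary G Y) T₂

/-- The edge `e` joins the set `X` and the vertex `a`. -/
def Joins {V E : Type} (G : OrGraph V E) (X : Finset V) (a : V) (e : E) : Prop :=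
  (G.t e ∈ X ∧ G.h e = a) ∨ (G.t e = a ∧ G.h e ∈ X)

/-- The sets `X` and `Y` are joined by an edge, or by two different paths with two edges. -/
def Close {V E : Type} (G : OrGraph V E) (X Y : Finset V) : Prop :=
  (∃ e, (G.t e ∈ X ∧ G.h e ∈ Y) ∨ (G.t e ∈ Y ∧ G.h e ∈ X)) ∨
    ∃ (e f e' f' : E) (a b : V), (e ≠ e' ∨ f ≠ f') ∧ Joins G X a e ∧ Joins G Y a f ∧
      Joins G X b e' ∧ Joins G Y b f'

/-- For some chain of sets of edges (for instance the empty chain) one of the following holds for
the sets of vertices which have at least one boundary edge and none in the chain: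
any seven pairwise disjoint such sets include two close ones; any six pairwise disjoint such sets
with odd boundaries and at most 26 boundary edges in total include two close ones. -/
def NeverFar {V E : Type} [Fintype V] [DecidableEq V] [Fintype E] [DecidableEq E]
    (G : OrGraph V E) : Prop :=
  ∃ (m : ℕ) (C : Fin m → Finset E), (∀ i, Adds G (earlier C i) (C i)) ∧
    ((∀ X : Fin 7 → Finset V, (∀ i j, i ≠ j → Disjoint (X i) (X j)) →
      (∀ i, Disjoint (boundary G (X i)) (univ.biUnion C)) →
      (∀ i, (boundary G (X i)).Nonempty) → ∃ i j, i ≠ j ∧ Close G (X i) (X j)) ∨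
    (∀ X : Fin 6 → Finset V, (∀ i j, i ≠ j → Disjoint (X i) (X j)) →
      (∀ i, Disjoint (boundary G (X i)) (univ.biUnion C)) →
      (∀ i, Odd (boundary G (X i)).card) → ∑ i, (boundary G (X i)).card ≤ 26 →
      ∃ i j, i ≠ j ∧ Close G (X i) (X j)))

/-- `α e, β e` are admissible values of a `1/2`-flow-pair at the edges `e` of `w` (without loops):
the two sums of the outgoing values are zero, `|α e| ≤ 1`, `|β e| ≤ 3`, and `|β e| ≥ 2` if
`α e = 0`. -/
def Admissible {V E : Type} [Fintype V] [Fintype E] [DecidableEq V] [DecidableEq E]
    (G : OrGraph V E) (w : V) (α β : E → ℤ) : Prop :=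
  ∑ e ∈ G.cut {w}, (if G.t e = w then α e else - α e) = 0 ∧
  ∑ e ∈ G.cut {w}, (if G.t e = w then β e else - β e) = 0 ∧
  ∀ e ∈ G.cut {w}, |α e| ≤ 1 ∧ |β e| ≤ 3 ∧ (α e = 0 → 2 ≤ |β e|)

/-- Let `G` be a bridgeless multigraph with the property above.  Then `G` has a `1/2`-flow-pair, and
all admissible values at a vertex with three edges extend. -/
theorem result (V E : Type) [Fintype V] [DecidableEq V] [Fintype E] [DecidableEq E]
    (G : OrGraph V E) (hB : G.Bridgeless) (h : NeverFar G) :
    (∃ φ₂ φ₄ : E → ℤ, G.IsHalfFlowPair φ₂ φ₄) ∧
      ∀ w, (G.cut {w}).card = 3 → ∀ α β : E → ℤ, Admissible G w α β →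
        ∃ φ₂ φ₄ : E → ℤ, G.IsHalfFlowPair φ₂ φ₄ ∧ ∀ e ∈ G.cut {w}, φ₂ e = α e ∧ φ₄ e = β e := by
  obtain ⟨m, C, hC, hO⟩ := h
  have h0 : Run7.h694.CP.Kfar G.t G.h (univ.biUnion C) := by
    rcases hO with hO | hO
    · exact Or.inl fun X h1 h2 h3 _ => hO X h1 h2 h3
    · exact Or.inr (Or.inl fun X h1 h2 _ h4 => hO X h1 h2 h4.1 h4.2)
  exact Run7.h694.CP.hfp_gen Run7.h694.CP.inh_far G hB (Pool.Agent.N410.DC.GCl.of_steps hC h0)

end Pool.Agent.Results.MP_e59a69_co.FarDisjointSets
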