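import Pool.Agent.Run7.h694.CP.Hfp

/-!
# `1/2`-flow-pairs: matching number at most eight (MP_e59a69_co)

Let `G` be a bridgeless multigraph in which every matching has at most eight edges, for example
after the contraction of a chain of circuits or ears with at most four new edges and of doubly
connected pieces. Then `G` has a `1/2`-flow-pair, and at every vertex with exactly three edges every
admissible choice of the values extends.

Proof. Let `H` be a quotient modulo the chain without nowhere-zero 4-flow and without Petersen
quotient such that all proper quotients of `H` have a flow. By `R769/MN` (Tutte-Berge formula; `H`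
has girth at least five, minimum degree three, apart from isolated vertices, and at least 18 vertices
of odd degree) `H` has a matching with nine edges. So `G` and every bridgeless graph obtained
from it by identification of vertices has a nowhere-zero 4-flow, or ten classes of vertices form a
Petersen graph, and the induction of `R129/Hfp/Main.lean` applies.
-/

set_option autoImplicit false

namespace Pool.Agent.Results.MP_e59a69_co.MatchingNumberEight

open Finset Pool.Agent.H160R2.HF Pool.Agent.R129.Hfp

/-- The edges with exactly one end in `X`. -/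
def boundary {V E : Type} [DecidableEq V] [Fintype E] (G : OrGraph V E) (X : Finset V) :
    Finset E :=
  univ.filter (fun e => ¬ (G.t e ∈ X ↔ G.h e ∈ X))

/-- The union of the sets `C j` with `j < i`. -/
def earlier {E : Type} [DecidableEq E] {m : ℕ} (C : Fin m → Finset E) (i : Fin m) : Finset E :=
  (univ.filter (fun j => j < i)).biUnion C

/-- `H` can be added to the chain after `F`: either (short) `H` has at most four edges outside `F`
and no bridge modulo `F`: no set `Y` of vertices without boundary edges in `F` has exactly one
boundary edge in `H`; or (doubly connected) `H` contains two disjoint sets each of which connects,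
modulo `F`, whatever `H` connects: every set `Y` of vertices without boundary edges in `F` and with
a boundary edge in `H` has boundary edges in both sets. -/
def Adds {V E : Type} [DecidableEq V] [Fintype E] [DecidableEq E] (G : OrGraph V E)
    (F H : Finset E) : Prop :=
  ((H \ F).card ≤ 4 ∧ ∀ Y : Finset V, Disjoint (boundary G Y) F →
    (boundary G Y ∩ H).card ≠ 1) ∨
  ∃ T₁ T₂ : Finset E, T₁ ⊆ H ∧ T₂ ⊆ H ∧ Disjoint T₁ T₂ ∧ ∀ Y : Finset V,
    Disjoint (boundary G Y) F → ¬ Disjoint (boundary G Y) H →
      ¬ Disjoint (boundary G Y) T₁ ∧ ¬ Disjoint (boundary G Y) T₂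

/-- `M` is a matching of the graph in which the edge `e` joins `s e` and `t e`: its edges are not
loops and no two of them have a common end. -/
def IsMatching {V E : Type} (s t : E → V) (M : Finset E) : Prop :=
  (∀ e ∈ M, s e ≠ t e) ∧ ∀ e ∈ M, ∀ e' ∈ M, e ≠ e' →
    s e ≠ s e' ∧ s e ≠ t e' ∧ t e ≠ s e' ∧ t e ≠ t e'

/-- For some chain of sets of edges (for instance the empty chain) every matching has at most eight
edges after the contraction of the edges of the chain (and possibly further identifications `ρ`,
which do not matter: they do not create new matchings). -/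
def FewDisjointEdges {V E : Type} [Fintype V] [DecidableEq V] [Fintype E] [DecidableEq E]
    (G : OrGraph V E) : Prop :=
  ∃ (m : ℕ) (C : Fin m → Finset E), (∀ i, Adds G (earlier C i) (C i)) ∧
    ∀ ρ : V → V, (∀ e ∈ univ.biUnion C, ρ (G.t e) = ρ (G.h e)) →
      ∀ M : Finset E, IsMatching (fun e => ρ (G.t e)) (fun e => ρ (G.h e)) M → M.card ≤ 8

/-- `α e, β e` are admissible values of a `1/2`-flow-pair at the edges `e` of `w` (without loops):
the two sums of the outgoing values are zero, `|α e| ≤ 1`, `|β e| ≤ 3`, and `|β e| ≥ 2` if
`α e = 0`. -/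
def Admissible {V E : Type} [Fintype V] [Fintype E] [DecidableEq V] [DecidableEq E]
    (G : OrGraph V E) (w : V) (α β : E → ℤ) : Prop :=
  ∑ e ∈ G.cut {w}, (if G.t e = w then α e else - α e) = 0 ∧
  ∑ e ∈ G.cut {w}, (if G.t e = w then β e else - β e) = 0 ∧
  ∀ e ∈ G.cut {w}, |α e| ≤ 1 ∧ |β e| ≤ 3 ∧ (α e = 0 → 2 ≤ |β e|)

/-- Let `G` be a bridgeless multigraph without nine pairwise disjoint edges, possibly only after the
contraction of a chain.  Then `G` has a `1/2`-flow-pair, and all admissible values at a vertex with
three edges extend. -/
theorem result (V E : Type) [Fintype V] [DecidableEq V] [Fintype E] [DecidableEq E]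
    (G : OrGraph V E) (hB : G.Bridgeless) (h : FewDisjointEdges G) :
    (∃ φ₂ φ₄ : E → ℤ, G.IsHalfFlowPair φ₂ φ₄) ∧
      ∀ w, (G.cut {w}).card = 3 → ∀ α β : E → ℤ, Admissible G w α β →
        ∃ φ₂ φ₄ : E → ℤ, G.IsHalfFlowPair φ₂ φ₄ ∧ ∀ e ∈ G.cut {w}, φ₂ e = α e ∧ φ₄ e = β e := by
  obtain ⟨m, C, hC, hO⟩ := h
  have h0 : Run7.h694.CP.Red Run7.h694.CP.Mat8 G.t G.h (univ.biUnion C) := fun ρ h1 M h2 =>
    hO ρ h1 M h2
  exact Run7.h694.CP.hfp_gen Run7.h694.CP.inh_mat8 G hB (Pool.Agent.N410.DC.GCl.of_steps hC h0)

end Pool.Agent.Results.MP_e59a69_co.MatchingNumberEight
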