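import Pool.Agent.Run7.h694.CP.Hfp
import Pool.Agent.N410.DC.Part

/-!
# `1/2`-flow-pairs: partitions with 18 odd classes (MP_e59a69_co)

Let `G` be a bridgeless multigraph such that every partition of the vertex set into `k` classes,
at least 18 of which have an odd number of boundary edges, has at least `2 (k - 1)` crossing edges.
Then `G` has a `1/2`-flow-pair, and at every vertex with exactly three edges every admissible choice
of the values extends.

If all partitions have this property then `G` has two disjoint spanning trees (Tutte, Nash-Williams)
and a nowhere-zero 4-flow (Jaeger). Here the condition is only needed for partitions with at least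
18 odd classes: graphs with at most 16 vertices of odd degree, simple graphs with `n ≥ 21` vertices
and at least `(n - 17 choose 2) + 34` edges, and many others are included. More generally it is only
needed for partitions without crossing edges in the union `F` of a chain of circuits or ears with at
most four new edges and of doubly connected pieces.

Proof. By `N410/DC/Part.lean` (a set of `k ≥ 2` vertices of a minimal quotient without 4-flow and
without Petersen quotient spans at most `2 k - 3` edges) every bridgeless graph with this property
has a nowhere-zero 4-flow or a Petersen quotient, and the property is inherited by quotients. So `G` and every bridgeless graph obtained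
from it by identification of vertices has a nowhere-zero 4-flow, or ten classes of vertices form a
Petersen graph, and the induction of `R129/Hfp/Main.lean` applies.
-/

set_option autoImplicit false

namespace Pool.Agent.Results.MP_e59a69_co.PartitionsEighteen

open Finset Pool.Agent.H160R2.HF Pool.Agent.R129.Hfp

/-- The edges with exactly one end in `X`. -/
def boundary {V E : Type} [DecidableEq V] [Fintype E] (G : OrGraph V E) (X : Finset V) :
    Finset E :=
  univ.filter (fun e => ¬ (G.t e ∈ X ↔ G.h e ∈ X))

/-- The union of the sets `C j` with `j < i`. -/
def earlier {E : Type} [DecidableEq E] {m : ℕ} (C : Fin m → Finset E) (i : Fin m) : Finset E :=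
  (univ.filter (fun j => j < i)).biUnion C

/-- `H` can be added to the chain after `F`: either (short) `H` has at most four edges outside `F`
and no bridge modulo `F`: no set `Y` of vertices without boundary edges in `F` has exactly one
boundary edge in `H`; or (doubly connected) `H` contains two disjoint sets each of which connects,
modulo `F`, whatever `H` connects: every set `Y` of vertices without boundary edges in `F` and with
a boundary edge in `H` has boundary edges in both sets. -/
def Adds {V E : Type} [DecidableEq V] [Fintype E] [DecidableEq E] (G : OrGraph V E)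
    (F H : Finset E) : Prop :=
  ((H \ F).card ≤ 4 ∧ ∀ Y : Finset V, Disjoint (boundary G Y) F →
    (boundary G Y ∩ H).card ≠ 1) ∨
  ∃ T₁ T₂ : Finset E, T₁ ⊆ H ∧ T₂ ⊆ H ∧ Disjoint T₁ T₂ ∧ ∀ Y : Finset V,
    Disjoint (boundary G Y) F → ¬ Disjoint (boundary G Y) H →
      ¬ Disjoint (boundary G Y) T₁ ∧ ¬ Disjoint (boundary G Y) T₂

/-- The `i`-th class of the partition `p`. -/
def part {V : Type} [Fintype V] {k : ℕ} (p : V → Fin k) (i : Fin k) : Finset V :=
  univ.filter (fun v => p v = i)

/-- For some chain of sets of edges (for instance the empty chain) every partition of the vertex set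
into `k` classes without crossing edges in the chain, at least 18 of which have an odd number of
boundary edges, has at least `2 (k - 1)` crossing edges. -/
def ManyCrossing {V E : Type} [Fintype V] [DecidableEq V] [Fintype E] [DecidableEq E]
    (G : OrGraph V E) : Prop :=
  ∃ (m : ℕ) (C : Fin m → Finset E), (∀ i, Adds G (earlier C i) (C i)) ∧
    ∀ (k : ℕ) (p : V → Fin k), Function.Surjective p →
      (∀ e ∈ univ.biUnion C, p (G.t e) = p (G.h e)) →
      18 ≤ (univ.filter (fun i => Odd (boundary G (part p i)).card)).card →
      2 * k ≤ (univ.filter (fun e => p (G.t e) ≠ p (G.h e))).card + 2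

/-- `α e, β e` are admissible values of a `1/2`-flow-pair at the edges `e` of `w` (without loops):
the two sums of the outgoing values are zero, `|α e| ≤ 1`, `|β e| ≤ 3`, and `|β e| ≥ 2` if
`α e = 0`. -/
def Admissible {V E : Type} [Fintype V] [Fintype E] [DecidableEq V] [DecidableEq E]
    (G : OrGraph V E) (w : V) (α β : E → ℤ) : Prop :=
  ∑ e ∈ G.cut {w}, (if G.t e = w then α e else - α e) = 0 ∧
  ∑ e ∈ G.cut {w}, (if G.t e = w then β e else - β e) = 0 ∧
  ∀ e ∈ G.cut {w}, |α e| ≤ 1 ∧ |β e| ≤ 3 ∧ (α e = 0 → 2 ≤ |β e|)

/-- Let `G` be a bridgeless multigraph with the property above.  Then `G` has a `1/2`-flow-pair, and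
all admissible values at a vertex with three edges extend. -/
theorem result (V E : Type) [Fintype V] [DecidableEq V] [Fintype E] [DecidableEq E]
    (G : OrGraph V E) (hB : G.Bridgeless) (h : ManyCrossing G) :
    (∃ φ₂ φ₄ : E → ℤ, G.IsHalfFlowPair φ₂ φ₄) ∧
      ∀ w, (G.cut {w}).card = 3 → ∀ α β : E → ℤ, Admissible G w α β →
        ∃ φ₂ φ₄ : E → ℤ, G.IsHalfFlowPair φ₂ φ₄ ∧ ∀ e ∈ G.cut {w}, φ₂ e = α e ∧ φ₄ e = β e := by
  obtain ⟨m, C, hC, hO⟩ := h
  exact Run7.h694.CP.hfp_gen Pool.Agent.N410.DC.inh_part G hB
    (Pool.Agent.N410.DC.GCl.of_part hC hO)

end Pool.Agent.Results.MP_e59a69_co.PartitionsEighteen
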